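import Pool.Agent.Y283.NK.Stm2

/-!
Job NK-ADJ: adjoints, trace class operators.
-/

set_option autoImplicit false

namespace Pool.Agent.Y77.NK

open MeasureTheory Set Metric Filter Topology
open scoped InnerProductSpace ENNReal NNReal ComplexConjugate
open Pool.Agent.Y283.NK

/-! ### adjoints of multiplication operators -/

theorem isMul_adj {S : Type} [MeasurableSpace S] {μ : Measure S} {φ : S → ℂ}
    {N : Lp ℂ 2 μ →L[ℂ] Lp ℂ 2 μ} (h : IsMul φ N) :
    IsMul (fun s => conj (φ s)) (ContinuousLinearMap.adjoint N) := by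
  obtain ⟨M, hM⟩ := h.bdd
  refine ⟨Complex.continuous_conj.measurable.comp h.meas, ⟨M, fun s => ?_⟩, fun f => ?_⟩
  · rw [Complex.norm_conj]
    exact hM s
  · have hmem : MemLp (fun s => conj (φ s) * f s) 2 μ := by
      refine MemLp.of_le_mul (c := M) (Lp.memLp f) ?_ ?_
      · exact (Complex.continuous_conj.measurable.comp h.meas).aestronglyMeasurable.mul
          (Lp.memLp f).aestronglyMeasurable
      · refine Eventually.of_forall fun s => ?_
        rw [norm_mul, Complex.norm_conj]
        exact mul_le_mul_of_nonneg_right (hM s) (norm_nonneg _)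
    have hcoe := hmem.coeFn_toLp
    have heq : ContinuousLinearMap.adjoint N f = hmem.toLp _ := by
      refine ext_inner_right ℂ fun g => ?_
      rw [ContinuousLinearMap.adjoint_inner_left, L2.inner_def, L2.inner_def]
      apply integral_congr_ae
      filter_upwards [h.eq g, hcoe] with s h1 h2
      rw [h1, h2]
      simp only [RCLike.inner_apply, map_mul, Complex.conj_conj]
      ring
    rw [heq]
    exact hcoe

theorem ct_conj {S : Type} [MeasurableSpace S] {μ : Measure S} (φ : S → ℂ) (g f : Lp ℂ 2 μ)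
    (z : ℂ) : ct (fun s => conj (φ s)) g f (conj z) = conj (ct φ f g z) := by
  unfold ct
  rw [← integral_conj]
  refine integral_congr_ae (Eventually.of_forall fun s => ?_)
  simp only [map_mul, map_inv₀, map_sub, Complex.conj_conj]
  ring

/-- ADJ -/
theorem main_adj : S_ADJ := by
  intro S _ μ _ φ N h
  refine ⟨isMul_adj h, fun u v n t z => ?_⟩
  have h1 : MM (fun s => conj (φ s)) v u n (conj t) (conj z) = (MM φ u v n t z).conjTranspose := by
    ext i j
    unfold MM
    simp only [Matrix.conjTranspose_apply, Matrix.sub_apply, Matrix.smul_apply, Matrix.of_apply,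
      smul_eq_mul, star_sub, star_mul', Matrix.one_apply, ct_conj]
    rw [show (star (if j = i then (1:ℂ) else 0)) = if i = j then 1 else 0 by
      by_cases hij : i = j
      · rw [if_pos hij, if_pos hij.symm, star_one]
      · rw [if_neg hij, if_neg (Ne.symm hij), star_zero]]
    rfl
  rw [h1, Matrix.det_conjTranspose]
  rfl

/-! ### trace class operators -/

section trc

variable {H : Type} [NormedAddCommGroup H] [InnerProductSpace ℂ H]

/-- the operator of rank one -/
noncomputable def T1 (u v : ℕ → H) (j : ℕ) : H →L[ℂ] H := (innerSL ℂ (v j)).smulRight (u j)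

theorem T1_apply (u v : ℕ → H) (j : ℕ) (f : H) : T1 u v j f = ⟪v j, f⟫_ℂ • u j := rfl

theorem fr_eq (u v : ℕ → H) (n : ℕ) : fr u v n = ∑ j ∈ Finset.range n, T1 u v j := rfl

theorem T1_compact (u v : ℕ → H) (j : ℕ) : IsCompactOperator (T1 u v j) := by
  have h1 : IsCompactOperator (ContinuousLinearMap.toSpanSingleton ℂ (u j)) :=
    isCompactOperator_of_locallyCompactSpace_rng (ContinuousLinearMap.toSpanSingleton ℂ (u j))
  exact h1.comp_clm (innerSL ℂ (v j))

theorem T1_norm (u v : ℕ → H) (j : ℕ) : ‖T1 u v j‖ ≤ ‖u j‖ ^ 2 + ‖v j‖ ^ 2 := by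
  refine ContinuousLinearMap.opNorm_le_bound _ (by positivity) fun f => ?_
  rw [T1_apply, norm_smul]
  have h1 : ‖⟪v j, f⟫_ℂ‖ ≤ ‖v j‖ * ‖f‖ := norm_inner_le_norm _ _
  have h2 : ‖v j‖ * ‖u j‖ ≤ ‖u j‖ ^ 2 + ‖v j‖ ^ 2 := by
    nlinarith [sq_nonneg (‖u j‖ - ‖v j‖), sq_nonneg (‖u j‖), sq_nonneg (‖v j‖)]
  calc ‖⟪v j, f⟫_ℂ‖ * ‖u j‖ ≤ (‖v j‖ * ‖f‖) * ‖u j‖ :=
        mul_le_mul_of_nonneg_right h1 (norm_nonneg _)
    _ = (‖v j‖ * ‖u j‖) * ‖f‖ := by ring
    _ ≤ (‖u j‖ ^ 2 + ‖v j‖ ^ 2) * ‖f‖ := mul_le_mul_of_nonneg_right h2 (norm_nonneg _)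

theorem hasSum_T1 [CompleteSpace H] {K : H →L[ℂ] H} {u v : ℕ → H} (h : Repr K u v) :
    HasSum (fun j => T1 u v j) K := by
  obtain ⟨h1, h2, h3⟩ := h
  have hs : Summable (fun j => T1 u v j) :=
    Summable.of_norm_bounded (h1.add h2) (fun j => T1_norm u v j)
  have heq : ∑' j, T1 u v j = K := by
    ext f
    have e1 : HasSum (fun j => T1 u v j f) ((∑' j, T1 u v j) f) :=
      hs.hasSum.mapL (ContinuousLinearMap.apply ℂ H f)
    exact e1.unique (h3 f)
  rw [← heq]
  exact hs.hasSum

theorem T1_adj [CompleteSpace H] (u v : ℕ → H) (j : ℕ) :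
    ContinuousLinearMap.adjoint (T1 u v j) = T1 v u j := by
  refine ContinuousLinearMap.ext fun f => ext_inner_right ℂ fun g => ?_
  rw [ContinuousLinearMap.adjoint_inner_left, T1_apply, T1_apply, inner_smul_right,
    inner_smul_left, inner_conj_symm, mul_comm]

theorem repr_adj [CompleteSpace H] {K : H →L[ℂ] H} {u v : ℕ → H} (h : Repr K u v) :
    Repr (ContinuousLinearMap.adjoint K) v u := by
  refine ⟨h.2.1, h.1, fun f => ?_⟩
  have e1 : HasSum (fun j => ContinuousLinearMap.adjoint (T1 u v j))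
      (ContinuousLinearMap.adjoint K) :=
    (hasSum_T1 h).map (ContinuousLinearMap.adjoint (𝕜 := ℂ) (E := H) (F := H))
      (LinearIsometryEquiv.continuous _)
  simp only [T1_adj] at e1
  exact e1.mapL (ContinuousLinearMap.apply ℂ H f)

end trc

/-- TRC -/
theorem main_trc : S_TRC := by
  intro H _ _ _ K u v h
  have hsum := hasSum_T1 h
  have ht : Tendsto (fun n => fr u v n) atTop (𝓝 K) := hsum.tendsto_sum_nat
  refine ⟨repr_adj h, ?_, ht, ?_⟩
  · refine isCompactOperator_of_tendsto ht (Eventually.of_forall fun n => ?_)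
    rw [fr_eq]
    induction n with
    | zero =>
      rw [Finset.sum_range_zero]
      exact isCompactOperator_zero
    | succ n ih =>
      rw [Finset.sum_range_succ]
      exact ih.add (T1_compact u v n)
  · intro H' _ _ _ W K' hK
    refine ⟨?_, ?_, fun f => ?_⟩
    · simpa only [LinearIsometryEquiv.norm_map] using h.1
    · simpa only [LinearIsometryEquiv.norm_map] using h.2.1
    · have e1 := (h.2.2 (W f)).map W.symm W.symm.continuous
      have e2 : W.symm (K (W f)) = K' f := by
        rw [← hK, LinearIsometryEquiv.symm_apply_apply]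
      rw [e2] at e1
      have e3 : (fun j => ⟪W.symm (v j), f⟫_ℂ • W.symm (u j)) =
          W.symm ∘ fun j => ⟪v j, W f⟫_ℂ • u j := by
        funext j
        rw [Function.comp_apply, map_smul, ← LinearIsometryEquiv.inner_map_map W (W.symm (v j)) f,
          LinearIsometryEquiv.apply_symm_apply]
      rw [e3]
      exact e1

end Pool.Agent.Y77.NK
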